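import Pool.Agent.Helper69.ST.MainW

/-!
The disk is optimal for the `k`-th Steklov eigenvalue under the area constraint among the Lipschitz domains with a
rotational symmetry of order `p`, where `k/2 < p ≤ (2k - 3)/3`, `k ≥ 45`.
-/

open Metric
open Pool.Agent.Helper45.Stek Pool.Agent.Helper69.ST

namespace Pool.Agent.Results.MP_438009_an.DiskOptimal

theorem result (k p : ℕ) (hk : 45 ≤ k) (h1 : k < 2 * p) (h2 : 3 * p + 3 ≤ 2 * k) :
    IsGreatest {x : ℝ | ∃ Ω : Set ℂ, LipDomain Ω ∧ HasRotation p Ω ∧ x = steklov k Ω * √(area Ω)}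
      (((k + 1) / 2 : ℕ) * √Real.pi) ∧
    steklov k (ball 0 1) * √(area (ball 0 1)) = ((k + 1) / 2 : ℕ) * √Real.pi ∧
    ∀ Ω : Set ℂ, IsMaximiser k Ω → ¬ HasRotation p Ω :=
  disk_optimal finw k p hk h1 h2

end Pool.Agent.Results.MP_438009_an.DiskOptimal
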