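import Pool.Agent.Helper69.ST.MainW

/-!
Rotational symmetries of maximisers of the `k`-th Steklov eigenvalue under the area constraint, `k ≥ 60`: no rotation
which maps a maximiser onto itself has an order `p` with `k/2 < p ≤ 3k/4`.
-/

open Metric
open Pool.Agent.Helper45.Stek Pool.Agent.Helper69.ST

namespace Pool.Agent.Results.MP_438009_an.RotationGap

theorem result (k : ℕ) (hk : 60 ≤ k) :
    (∀ (p : ℕ) (Ω : Set ℂ), k < 2 * p → 4 * p ≤ 3 * k → LipDomain Ω → HasRotation p Ω →
      steklov k Ω * √(area Ω) ≤ 14 / 25 * (k : ℝ) * √Real.pi) ∧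
    (LipDomain (petals k) ∧ RotSymmetric k (petals k) ∧
      14 / 25 * (k : ℝ) * √Real.pi < steklov k (petals k) * √(area (petals k))) ∧
    ∀ (p : ℕ) (Ω : Set ℂ), k < 2 * p → 4 * p ≤ 3 * k → IsMaximiser k Ω → ¬ HasRotation p Ω :=
  rotation_gap finw k hk

end Pool.Agent.Results.MP_438009_an.RotationGap
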