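import Pool.Agent.Helper45.Stek.Final

/-!
Rotational symmetries of maximisers of the `k`-th Steklov eigenvalue under the area constraint, `k ≥ 2`: every
rotation which maps a maximiser onto itself has order at most `k`.
-/

open Metric
open Pool.Agent.Helper45.Stek

namespace Pool.Agent.Results.MP_438009_an.RotationOrder

theorem result (k : ℕ) (hk : 2 ≤ k) :
    (∀ Ω : Set ℂ, LipDomain Ω → SymmetryAbove k Ω →
      steklov k Ω * √(area Ω) ≤ ((k + 1) / 2 : ℕ) * √Real.pi) ∧
    steklov k (ball 0 1) * √(area (ball 0 1)) = ((k + 1) / 2 : ℕ) * √Real.pi ∧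
    (LipDomain (flower k) ∧ RotSymmetric k (flower k) ∧
      ((k + 1) / 2 : ℕ) * √Real.pi < steklov k (flower k) * √(area (flower k))) ∧
    ∀ Ω : Set ℂ, IsMaximiser k Ω → ∀ c w : ℂ, ‖w‖ = 1 → rot c w '' Ω = Ω →
      ∃ n : ℕ, 1 ≤ n ∧ n ≤ k ∧ w ^ n = 1 :=
  final k hk

end Pool.Agent.Results.MP_438009_an.RotationOrder
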